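import Pool.Agent.RDO.Stmts

/-!
# Squad RDO, row KNE: Kneser's lemma for discs
-/

set_option autoImplicit false

open MeasureTheory Module Submodule
open scoped ENNReal Pointwise

namespace Pool.Agent.RDO.H44

open Pool.Agent.RDO

/-- the part of the disc `i` which is nearest to `c i` -/
def W {n : ℕ} (c : Fin n → P2) (i : Fin n) : Set P2 :=
  {z | z ∈ Metric.closedBall (c i) 1 ∧ (∀ j, dist z (c i) ≤ dist z (c j)) ∧
    ∀ j, j < i → dist z (c i) < dist z (c j)}

theorem W_meas {n : ℕ} (c : Fin n → P2) (i : Fin n) : MeasurableSet (W c i) := by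
  have hd : ∀ j, Measurable fun z : P2 => dist z (c j) := fun j =>
    (continuous_id.dist continuous_const).measurable
  have h1 : MeasurableSet {z : P2 | ∀ j, dist z (c i) ≤ dist z (c j)} := by
    have h : {z : P2 | ∀ j, dist z (c i) ≤ dist z (c j)} =
        ⋂ j, {z : P2 | dist z (c i) ≤ dist z (c j)} := by
      ext z; simp
    rw [h]
    exact MeasurableSet.iInter fun j => measurableSet_le (hd i) (hd j)
  have h2 : MeasurableSet {z : P2 | ∀ j, j < i → dist z (c i) < dist z (c j)} := by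
    have h : {z : P2 | ∀ j, j < i → dist z (c i) < dist z (c j)} =
        ⋂ j, ⋂ (_ : j < i), {z : P2 | dist z (c i) < dist z (c j)} := by
      ext z; simp
    rw [h]
    exact MeasurableSet.iInter fun j => MeasurableSet.iInter fun _ =>
      measurableSet_lt (hd i) (hd j)
  exact Metric.isClosed_closedBall.measurableSet.inter (h1.inter h2)

theorem W_disj {n : ℕ} (c : Fin n → P2) : Pairwise (Function.onFun Disjoint (W c)) := by
  have key : ∀ i j : Fin n, i < j → Disjoint (W c i) (W c j) := by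
    intro i j hij
    rw [Set.disjoint_left]
    rintro z ⟨_, hz1, _⟩ ⟨_, _, hz2⟩
    exact absurd (hz1 j) (not_le.2 (hz2 i hij))
  intro i j hij
  rcases lt_or_gt_of_ne hij with h | h
  · exact key i j h
  · exact (key j i h).symm

theorem W_union {n : ℕ} (c : Fin n → P2) : ⋃ i, W c i = Un c := by
  apply Set.Subset.antisymm
  · exact Set.iUnion_mono fun i z hz => hz.1
  · intro z hz
    obtain ⟨i₀, hi₀⟩ := Set.mem_iUnion.1 hz
    -- a nearest centre
    have hne : (Finset.univ : Finset (Fin n)).Nonempty := ⟨i₀, Finset.mem_univ _⟩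
    obtain ⟨m, _, hm⟩ := Finset.exists_min_image Finset.univ (fun i => dist z (c i)) hne
    have hex : ∃ i : Fin n, ∀ j, dist z (c i) ≤ dist z (c j) := ⟨m, fun j => hm j (Finset.mem_univ _)⟩
    classical
    -- the least index
    let S : Finset (Fin n) := Finset.univ.filter fun i => ∀ j, dist z (c i) ≤ dist z (c j)
    have hS : S.Nonempty := by
      obtain ⟨i, hi⟩ := hex
      exact ⟨i, Finset.mem_filter.2 ⟨Finset.mem_univ _, hi⟩⟩
    have hmin := S.min'_mem hS
    have h1 := (Finset.mem_filter.1 hmin).2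
    refine Set.mem_iUnion.2 ⟨S.min' hS, ?_, h1, ?_⟩
    · exact Metric.mem_closedBall.2 ((h1 i₀).trans (Metric.mem_closedBall.1 hi₀))
    · intro j hj
      by_contra hcon
      rw [not_lt] at hcon
      have h2 : j ∈ S := Finset.mem_filter.2 ⟨Finset.mem_univ _, fun l => hcon.trans (h1 l)⟩
      exact absurd (S.min'_le j h2) (not_le.2 hj)

/-- the image of `W c i` under the homothety with the ratio `r` -/
def Q {n : ℕ} (c : Fin n → P2) (r : ℝ) (i : Fin n) : Set P2 :=
  {y | c i + r⁻¹ • (y - c i) ∈ W c i}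

theorem Q_meas {n : ℕ} (c : Fin n → P2) (r : ℝ) (i : Fin n) : MeasurableSet (Q c r i) := by
  have h : Continuous fun y : P2 => c i + r⁻¹ • (y - c i) := by fun_prop
  exact h.measurable (W_meas c i)

theorem Q_eq {n : ℕ} (c : Fin n → P2) (r : ℝ) (hr : r ≠ 0) (i : Fin n) :
    Q c r i = AffineMap.homothety (c i) r '' W c i := by
  ext y
  constructor
  · intro hy
    refine ⟨c i + r⁻¹ • (y - c i), hy, ?_⟩
    rw [AffineMap.homothety_apply]
    simp only [vsub_eq_sub, vadd_eq_add, add_sub_cancel_left, smul_smul, mul_inv_cancel₀ hr,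
      one_smul, sub_add_cancel]
  · rintro ⟨z, hz, rfl⟩
    show c i + r⁻¹ • (AffineMap.homothety (c i) r z - c i) ∈ W c i
    rw [AffineMap.homothety_apply]
    simp only [vsub_eq_sub, vadd_eq_add, add_sub_cancel_right, smul_smul, inv_mul_cancel₀ hr,
      one_smul]
    rw [add_sub_cancel]
    exact hz

theorem Q_vol {n : ℕ} (c : Fin n → P2) (r : ℝ) (hr : r ≠ 0) (i : Fin n) :
    volume (Q c r i) = ENNReal.ofReal (r ^ 2) * volume (W c i) := by
  rw [Q_eq c r hr, Measure.addHaar_image_homothety, finrank_euclideanSpace_fin,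
    abs_of_nonneg (sq_nonneg r)]

theorem dists {n : ℕ} (c : Fin n → P2) (r : ℝ) (hr : 0 < r) (hr1 : r ≤ 1) (i : Fin n) (y : P2) :
    dist y (c i) = r * dist (c i + r⁻¹ • (y - c i)) (c i) ∧
      dist (c i + r⁻¹ • (y - c i)) y = (1 - r) * dist (c i + r⁻¹ • (y - c i)) (c i) := by
  have h1 : dist (c i + r⁻¹ • (y - c i)) (c i) = r⁻¹ * dist y (c i) := by
    rw [dist_eq_norm, dist_eq_norm, add_sub_cancel_left, norm_smul, Real.norm_of_nonneg
      (inv_nonneg.2 hr.le)]
  have h2 : c i + r⁻¹ • (y - c i) - y = (r⁻¹ - 1) • (y - c i) := by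
    rw [sub_smul, one_smul]
    abel
  have h3 : 0 ≤ r⁻¹ - 1 := by
    have := (one_le_inv₀ hr).2 hr1
    linarith
  refine ⟨?_, ?_⟩
  · rw [h1, ← mul_assoc, mul_inv_cancel₀ hr.ne', one_mul]
  · rw [h1, dist_eq_norm, h2, norm_smul, Real.norm_of_nonneg h3, ← dist_eq_norm]
    field_simp

theorem Q_disj {n : ℕ} (c : Fin n → P2) (r : ℝ) (hr : 0 < r) (hr1 : r ≤ 1) :
    Pairwise (Function.onFun Disjoint (Q c r)) := by
  have key : ∀ i j : Fin n, i < j → Disjoint (Q c r i) (Q c r j) := by
    intro i j hij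
    rw [Set.disjoint_left]
    intro y hy1 hy2
    obtain ⟨_, h1, _⟩ := hy1
    obtain ⟨_, _, h2⟩ := hy2
    obtain ⟨a1, a2⟩ := dists c r hr hr1 i y
    obtain ⟨b1, b2⟩ := dists c r hr hr1 j y
    have h3 := h1 j
    have h4 := h2 i hij
    generalize c i + r⁻¹ • (y - c i) = z at *
    generalize c j + r⁻¹ • (y - c j) = z' at *
    have t1 := dist_triangle z y (c j)
    have t2 := dist_triangle z' y (c i)
    linarith
  intro i j hij
  rcases lt_or_gt_of_ne hij with h | h
  · exact key i j h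
  · exact (key j i h).symm

theorem kne : KneStmt := by
  intro n c r hr0 hr1
  rcases hr0.eq_or_lt with h0 | hr
  · rw [← h0]
    simp
  have h1 : volume (Un c) = ∑ i, volume (W c i) := by
    rw [← W_union, measure_iUnion (W_disj c) (W_meas c), tsum_fintype]
  have h2 : volume (⋃ i, Q c r i) = ∑ i, volume (Q c r i) := by
    rw [measure_iUnion (Q_disj c r hr hr1) (Q_meas c r), tsum_fintype]
  rw [h1, Finset.mul_sum]
  calc ∑ i, ENNReal.ofReal (r ^ 2) * volume (W c i) = ∑ i, volume (Q c r i) :=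
        Finset.sum_congr rfl fun i _ => (Q_vol c r hr.ne' i).symm
    _ = volume (⋃ i, Q c r i) := h2.symm
    _ ≤ volume (⋃ i, Metric.closedBall (c i) r) := by
        refine measure_mono (Set.iUnion_mono fun i y hy => ?_)
        obtain ⟨a1, _⟩ := dists c r hr hr1 i y
        have h3 : dist (c i + r⁻¹ • (y - c i)) (c i) ≤ 1 := Metric.mem_closedBall.1 hy.1
        rw [Metric.mem_closedBall, a1]
        calc r * dist (c i + r⁻¹ • (y - c i)) (c i) ≤ r * 1 := mul_le_mul_of_nonneg_left h3 hr.le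
          _ = r := mul_one r

end Pool.Agent.RDO.H44
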